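import Pool.Agent.J4H4.DM.Stm

/-!
Project DM of helper4: piece (T), one step.
-/

set_option autoImplicit false

namespace Pool.Agent.J4H57.DM

open Polynomial Complex
open Pool.Agent.J4H4.DM

/-- the polynomial with leading coefficient `c` and roots `m` -/
noncomputable def pol (c : ℂ) (m : Multiset ℂ) : ℂ[X] := C c * (m.map (fun w => X - C w)).prod

/-- `∑ 1/(z - w)^k` -/
noncomputable def ps (z : ℂ) (k : ℕ) (m : Multiset ℂ) : ℂ := (m.map (fun w => 1 / (z - w) ^ k)).sum

theorem pol_cons (c w : ℂ) (m : Multiset ℂ) : pol c (w ::ₘ m) = (X - C w) * pol c m := by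
  simp only [pol, Multiset.map_cons, Multiset.prod_cons]
  ring

theorem ps_cons (z : ℂ) (k : ℕ) (w : ℂ) (m : Multiset ℂ) : ps z k (w ::ₘ m) = 1 / (z - w) ^ k + ps z k m := by
  simp only [ps, Multiset.map_cons, Multiset.sum_cons]

theorem derivs (c z : ℂ) (m : Multiset ℂ) : (∀ w ∈ m, z - w ≠ 0) →
    (derivative (pol c m)).eval z = ps z 1 m * (pol c m).eval z ∧
    (derivative (derivative (pol c m))).eval z = (ps z 1 m ^ 2 - ps z 2 m) * (pol c m).eval z ∧
    (derivative (derivative (derivative (pol c m)))).eval z =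
      (ps z 1 m ^ 3 - 3 * ps z 1 m * ps z 2 m + 2 * ps z 3 m) * (pol c m).eval z := by
  induction m using Multiset.induction_on with
  | empty => intro _; simp [pol, ps]
  | cons w m ih =>
    intro h
    have hw : z - w ≠ 0 := h w (Multiset.mem_cons_self w m)
    obtain ⟨h1, h2, h3⟩ := ih fun v hv => h v (Multiset.mem_cons_of_mem hv)
    have e1 : derivative (pol c (w ::ₘ m)) = pol c m + (X - C w) * derivative (pol c m) := by
      rw [pol_cons, derivative_mul]; simp
    have e2 : derivative (derivative (pol c (w ::ₘ m))) =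
        2 * derivative (pol c m) + (X - C w) * derivative (derivative (pol c m)) := by
      rw [e1, derivative_add, derivative_mul]; simp; ring
    have e3 : derivative (derivative (derivative (pol c (w ::ₘ m)))) =
        3 * derivative (derivative (pol c m)) + (X - C w) * derivative (derivative (derivative (pol c m))) := by
      rw [e2, derivative_add, derivative_mul, derivative_mul]; simp; ring
    refine ⟨?_, ?_, ?_⟩
    · rw [e1, pol_cons, ps_cons]
      simp only [eval_add, eval_mul, eval_sub, eval_X, eval_C, h1]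
      field_simp
    · rw [e2, pol_cons, ps_cons, ps_cons]
      simp only [eval_add, eval_mul, eval_sub, eval_X, eval_C, eval_ofNat, h1, h2]
      field_simp
      ring
    · rw [e3, pol_cons, ps_cons, ps_cons, ps_cons]
      simp only [eval_add, eval_mul, eval_sub, eval_X, eval_C, eval_ofNat, h2, h3]
      field_simp
      ring

theorem eq_pol (Q : ℂ[X]) : Q = pol Q.leadingCoeff Q.roots := by
  rw [pol]
  exact (IsAlgClosed.splits Q).eq_prod_roots

/-- `a = ∑ Im (z - w)/|z - w|²` -/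
theorem bounds (z : ℂ) (R : ℝ) (hR : 0 < R) (m : Multiset ℂ) (h : ∀ w ∈ m, w.im + R ≤ z.im) :
    ‖ps z 2 m‖ ≤ ‖ps z 1 m‖ / R ∧ ‖ps z 3 m‖ ≤ ‖ps z 1 m‖ / R ^ 2 := by
  have ha : (m.map (fun w => (z - w).im / ‖z - w‖ ^ 2)).sum ≤ ‖ps z 1 m‖ := by
    have e : (ps z 1 m).im = -(m.map (fun w => (z - w).im / ‖z - w‖ ^ 2)).sum := by
      rw [ps]
      clear h
      induction m using Multiset.induction_on with
      | empty => simp
      | cons w m ih =>
        have : (1 / (z - w) ^ 1).im = -((z - w).im / ‖z - w‖ ^ 2) := by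
          rw [pow_one, one_div, Complex.inv_im, Complex.normSq_eq_norm_sq]
          ring
        rw [Multiset.map_cons, Multiset.sum_cons, Complex.add_im, ih, this, Multiset.map_cons, Multiset.sum_cons]
        ring
    have h1 := Complex.abs_im_le_norm (ps z 1 m)
    rw [e, abs_neg] at h1
    exact (le_abs_self _).trans h1
  have hn : ∀ w ∈ m, R ≤ ‖z - w‖ := by
    intro w hw
    have h1 := Complex.abs_im_le_norm (z - w)
    have h2 := h w hw
    rw [Complex.sub_im] at h1
    have h3 := le_abs_self (z.im - w.im)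
    linarith
  have him : ∀ w ∈ m, R ≤ (z - w).im := by
    intro w hw
    have h2 := h w hw
    rw [Complex.sub_im]
    linarith
  have hs : ∀ (k : ℕ), ‖ps z (k + 2) m‖ ≤ (m.map (fun w => (z - w).im / ‖z - w‖ ^ 2)).sum / R ^ (k + 1) := by
    intro k
    rw [ps]
    refine (norm_multiset_sum_le _).trans ?_
    rw [Multiset.map_map]
    rw [div_eq_mul_inv, mul_comm, ← Multiset.sum_map_mul_left]
    refine Multiset.sum_map_le_sum_map _ _ fun w hw => ?_
    simp only [Function.comp_apply, norm_div, norm_one, norm_pow]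
    have h1 := hn w hw
    have h2 := him w hw
    have h0 : 0 < ‖z - w‖ := lt_of_lt_of_le hR h1
    rw [pow_add ‖z - w‖ k 2]
    have h3 : R ^ k ≤ ‖z - w‖ ^ k := pow_le_pow_left₀ hR.le h1 k
    have h4 : (R ^ (k + 1))⁻¹ * ((z - w).im / ‖z - w‖ ^ 2) = ((z - w).im / R) / (R ^ k * ‖z - w‖ ^ 2) := by
      rw [pow_succ]
      field_simp
    rw [h4]
    refine (div_le_div_of_nonneg_left (by norm_num) (by positivity)
      (mul_le_mul_of_nonneg_right h3 (by positivity))).trans ?_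
    refine div_le_div_of_nonneg_right ?_ (by positivity)
    rw [le_div_iff₀ hR]
    linarith
  refine ⟨?_, ?_⟩
  · refine (hs 0).trans ?_
    rw [zero_add, pow_one]
    exact div_le_div_of_nonneg_right ha hR.le
  · refine (hs 1).trans ?_
    exact div_le_div_of_nonneg_right ha (by positivity)

theorem t_T : S_T := by
  intro Q z₀ b R M hQ hR hM hb hbM hw hL
  have hR0 : 0 < R := by linarith
  have hne : ∀ w ∈ Q.roots, z₀ - w ≠ 0 := by
    intro w hw' h0
    have h1 := hw w hw'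
    have h2 : (z₀ - w).im = 0 := by rw [h0]; simp
    rw [Complex.sub_im] at h2
    linarith
  have hq : Q.eval z₀ ≠ 0 := by
    intro h0
    exact hne z₀ ((mem_roots hQ).mpr h0) (sub_self z₀)
  obtain ⟨d1, d2, d3⟩ := derivs Q.leadingCoeff z₀ Q.roots hne
  rw [← eq_pol Q] at d1 d2 d3
  obtain ⟨b2, b3⟩ := bounds z₀ R hR0 Q.roots hw
  obtain ⟨s1, hs1⟩ : ∃ s, s = ps z₀ 1 Q.roots := ⟨_, rfl⟩
  obtain ⟨s2, hs2⟩ : ∃ s, s = ps z₀ 2 Q.roots := ⟨_, rfl⟩
  obtain ⟨s3, hs3⟩ : ∃ s, s = ps z₀ 3 Q.roots := ⟨_, rfl⟩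
  rw [← hs1] at d1 d2 d3 b2 b3
  rw [← hs2] at d2 d3 b2
  rw [← hs3] at d3 b3
  have hL1 : (derivative Q).eval z₀ / Q.eval z₀ = s1 := by
    rw [d1]; field_simp
  rw [hL1] at hL ⊢
  have hs1n : ‖s1‖ ≤ 2 * M := hL
  have hs2n : ‖s2‖ ≤ 2 * M / R := b2.trans (div_le_div_of_nonneg_right hL hR0.le)
  have hs3n : ‖s3‖ ≤ 2 * M / R ^ 2 := b3.trans (div_le_div_of_nonneg_right hL (by positivity))
  have hM0 : 0 ≤ M := by linarith
  have hR1 : 2 * M / R ≤ 2 * M := div_le_self (by positivity) hR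
  -- V
  have hV : ‖s1 ^ 2 - s2‖ ≤ 6 * M ^ 2 := by
    refine (norm_sub_le _ _).trans ?_
    rw [norm_pow]
    have h1 : ‖s1‖ ^ 2 ≤ (2 * M) ^ 2 := pow_le_pow_left₀ (norm_nonneg _) hs1n 2
    nlinarith
  have hbV : ‖(b : ℂ) * (s1 ^ 2 - s2)‖ ≤ 1 / 2 := by
    rw [norm_mul, Complex.norm_real, Real.norm_eq_abs, abs_of_nonneg hb]
    have := mul_le_mul_of_nonneg_left hV hb
    linarith
  have hden : 1 / 2 ≤ ‖1 - (b : ℂ) * (s1 ^ 2 - s2)‖ := by
    have h1 := norm_sub_norm_le (1 : ℂ) ((b : ℂ) * (s1 ^ 2 - s2))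
    rw [norm_one] at h1
    linarith
  have hden0 : 1 - (b : ℂ) * (s1 ^ 2 - s2) ≠ 0 := by
    intro h0
    rw [h0, norm_zero] at hden
    norm_num at hden
  have hdpos : 0 < ‖1 - (b : ℂ) * (s1 ^ 2 - s2)‖ := by linarith
  have e0 : (stp b Q).eval z₀ = (1 - (b : ℂ) * (s1 ^ 2 - s2)) * Q.eval z₀ := by
    rw [stp]
    simp only [eval_sub, eval_mul, eval_C, d2]
    ring
  have e1 : (derivative (stp b Q)).eval z₀ =
      (s1 - (b : ℂ) * (s1 ^ 3 - 3 * s1 * s2 + 2 * s3)) * Q.eval z₀ := by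
    rw [stp, derivative_sub, derivative_C_mul]
    simp only [eval_sub, eval_mul, eval_C, d1, d3]
    ring
  have hst : (stp b Q).eval z₀ ≠ 0 := by
    rw [e0]
    exact mul_ne_zero hden0 hq
  refine ⟨hq, hst, ?_, ?_⟩
  · have e2 : (derivative (stp b Q)).eval z₀ / (stp b Q).eval z₀ - s1 =
        ((b : ℂ) * (2 * s1 * s2 - 2 * s3)) / (1 - (b : ℂ) * (s1 ^ 2 - s2)) := by
      rw [e0, e1]
      field_simp
      ring
    rw [e2, norm_div, norm_mul, Complex.norm_real, Real.norm_eq_abs, abs_of_nonneg hb, div_le_iff₀ hdpos]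
    have h1 : ‖2 * s1 * s2 - 2 * s3‖ ≤ 12 * M ^ 2 / R := by
      refine (norm_sub_le _ _).trans ?_
      simp only [norm_mul, Complex.norm_ofNat]
      have h2 : ‖s1‖ * ‖s2‖ ≤ 2 * M * (2 * M / R) := mul_le_mul hs1n hs2n (norm_nonneg _) (by positivity)
      have h3 : 2 * M / R ^ 2 ≤ 2 * M ^ 2 / R := by
        rw [div_le_div_iff₀ (by positivity) hR0]
        have h4 : M ≤ M ^ 2 := by nlinarith
        have h5 : R ≤ R ^ 2 := by nlinarith
        have h6 : M * R ≤ M ^ 2 * R ^ 2 := mul_le_mul h4 h5 hR0.le (by positivity)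
        linarith
      have h7 : 12 * M ^ 2 / R = 2 * (2 * M * (2 * M / R)) + 2 * (2 * M ^ 2 / R) := by ring
      rw [h7]
      nlinarith
    have h8 : 0 ≤ 12 * M ^ 2 / R := by positivity
    calc b * ‖2 * s1 * s2 - 2 * s3‖ ≤ b * (12 * M ^ 2 / R) := mul_le_mul_of_nonneg_left h1 hb
      _ = 24 * b * M ^ 2 / R * (1 / 2) := by ring
      _ ≤ _ := mul_le_mul_of_nonneg_left hden (by positivity)
  · have e3 : (derivative Q).eval z₀ / (stp b Q).eval z₀ = s1 / (1 - (b : ℂ) * (s1 ^ 2 - s2)) := by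
      rw [e0, d1]
      field_simp
    rw [e3, norm_div, div_le_iff₀ hdpos]
    nlinarith

end Pool.Agent.J4H57.DM
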